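import Mathlib

set_option autoImplicit false

/-!
# The additive term `2 Δ - 4` does not suffice

For all `Δ ≥ 3` and `k ≥ 2 Δ - 1` there is a tournament on `k + 2 Δ - 4` vertices and an oriented tree with `k`
edges and maximum degree at most `Δ` which the tournament does not contain.
-/

namespace Pool.Agent.Results.MP_b931a8_co.AdditiveTerm

/-- a graph on `Fin (k+1)` given by a parent map is a tree -/
theorem isTree_of_parent (k : ℕ) (G : SimpleGraph (Fin (k+1))) (par : Fin (k+1) → Fin (k+1))
    (hlt : ∀ b, b ≠ 0 → par b < b)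
    (hadj : ∀ a b, G.Adj a b ↔ (a ≠ 0 ∧ par a = b) ∨ (b ≠ 0 ∧ par b = a)) : G.IsTree := by
  classical
  rw [SimpleGraph.isTree_iff_connected_and_card]
  constructor
  · have h0 : ∀ n : ℕ, ∀ b : Fin (k+1), b.val = n → G.Reachable 0 b := by
      intro n
      induction n using Nat.strong_induction_on with
      | _ n ih =>
        intro b hb
        by_cases hb0 : b = 0
        · subst hb0; exact SimpleGraph.Reachable.refl _
        · have h1 := hlt b hb0
          have h2 := ih (par b).val (by rw [← hb]; exact h1) (par b) rfl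
          exact h2.trans (SimpleGraph.Adj.reachable ((hadj _ _).2 (Or.inr ⟨hb0, rfl⟩)))
    have : Nonempty (Fin (k+1)) := ⟨0⟩
    refine SimpleGraph.Connected.mk ?_
    intro a b
    exact (h0 _ a rfl).symm.trans (h0 _ b rfl)
  · have hbij : Nat.card G.edgeSet = Nat.card {b : Fin (k+1) // b ≠ 0} := by
      symm
      refine Nat.card_congr (Equiv.ofBijective
        (fun b : {b : Fin (k+1) // b ≠ 0} =>
          (⟨s(b.1, par b.1), (SimpleGraph.mem_edgeSet G).2 ((hadj _ _).2 (Or.inl ⟨b.2, rfl⟩))⟩ : G.edgeSet)) ⟨?_, ?_⟩)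
      · rintro ⟨a, ha⟩ ⟨b, hb⟩ hab
        have h := congrArg Subtype.val hab
        simp only [Sym2.eq_iff] at h
        rcases h with ⟨h1, _⟩ | ⟨h1, h2⟩
        · exact Subtype.ext h1
        · exfalso
          have h3 := hlt a ha
          have h4 := hlt b hb
          rw [h2] at h3
          rw [← h1] at h4
          exact absurd h3 (not_lt.2 h4.le)
      · rintro ⟨e, he⟩
        induction e using Sym2.ind with
        | _ x y =>
          have hxy : G.Adj x y := he
          rcases (hadj _ _).1 hxy with ⟨hx, h⟩ | ⟨hy, h⟩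
          · refine ⟨⟨x, hx⟩, ?_⟩
            apply Subtype.ext
            simp [h]
          · refine ⟨⟨y, hy⟩, ?_⟩
            apply Subtype.ext
            simp only [h]
            exact Sym2.eq_swap
    rw [hbij]
    simp [Nat.card_eq_fintype_card, Fintype.card_subtype_compl]

/-- the tree: a directed path `0, 1, ..., c` with `h` in-leaves at `0` and `h` out-leaves at `c` -/
def E (c h : ℕ) (a b : ℕ) : Prop :=
  (a < c ∧ b = a + 1) ∨ (c < a ∧ a ≤ c + h ∧ b = 0) ∨ (a = c ∧ c + h < b)

/-- parent map of the tree -/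
def pr (c h : ℕ) (b : ℕ) : ℕ := if b ≤ c then b - 1 else if b ≤ c + h then 0 else c

theorem E_isTree (c h : ℕ) (hc : 1 ≤ c) (hh : 1 ≤ h) :
    (SimpleGraph.fromRel (fun a b : Fin (c + 2 * h + 1) => E c h a.1 b.1)).IsTree := by
  have hpr : ∀ b : ℕ, b ≠ 0 → pr c h b < b := by
    intro b hb
    unfold pr
    split_ifs <;> omega
  refine isTree_of_parent (c + 2 * h) _ (fun b => ⟨pr c h b.1, by
      by_cases hb : b.1 = 0
      · rw [hb]; simp [pr]
      · have := hpr b.1 hb; omega⟩) ?_ ?_
  · intro b hb
    have hb' : b.1 ≠ 0 := fun h0 => hb (Fin.ext h0)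
    exact hpr b.1 hb'
  · intro a b
    rw [SimpleGraph.fromRel_adj]
    have ha := a.2
    have hb := b.2
    have e1 : (a ≠ b) ↔ a.1 ≠ b.1 := by rw [Ne, Fin.ext_iff]
    have e2 : (a ≠ 0) ↔ a.1 ≠ 0 := by rw [Ne, Fin.ext_iff]; rfl
    have e3 : (b ≠ 0) ↔ b.1 ≠ 0 := by rw [Ne, Fin.ext_iff]; rfl
    rw [e1, e2, e3, Fin.ext_iff, Fin.ext_iff]
    simp only [E, pr]
    split_ifs <;> omega

/-- the tournament: two regular tournaments on `2 h - 1` vertices and between them a transitive one on `c`
vertices -/
def R (c h : ℕ) (x y : ℕ) : Prop :=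
  if x < 2 * h - 1 ∧ y < 2 * h - 1 then
    1 ≤ (y + (2 * h - 1) - x) % (2 * h - 1) ∧ (y + (2 * h - 1) - x) % (2 * h - 1) ≤ h - 1
  else if 2 * h - 1 + c ≤ x ∧ 2 * h - 1 + c ≤ y then
    1 ≤ (y - (2 * h - 1 + c) + (2 * h - 1) - (x - (2 * h - 1 + c))) % (2 * h - 1) ∧
      (y - (2 * h - 1 + c) + (2 * h - 1) - (x - (2 * h - 1 + c))) % (2 * h - 1) ≤ h - 1
  else x < y

theorem circ (h x y : ℕ) (hh : 2 ≤ h) (hx : x < 2 * h - 1) (hy : y < 2 * h - 1) :
    (y + (2 * h - 1) - x) % (2 * h - 1) = if x ≤ y then y - x else y + (2 * h - 1) - x := by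
  split_ifs with hle
  · have : y + (2 * h - 1) - x = (y - x) + (2 * h - 1) := by omega
    rw [this, Nat.add_mod_right, Nat.mod_eq_of_lt (by omega)]
  · rw [Nat.mod_eq_of_lt (by omega)]

theorem R_tour (c h : ℕ) (hh : 2 ≤ h) (x y : ℕ) (hx : x < 4 * h - 2 + c) (hy : y < 4 * h - 2 + c)
    (hxy : x ≠ y) : R c h x y ↔ ¬ R c h y x := by
  by_cases hA : x < 2 * h - 1 ∧ y < 2 * h - 1
  · unfold R
    rw [if_pos hA, if_pos hA.symm, circ h x y hh hA.1 hA.2, circ h y x hh hA.2 hA.1]
    split_ifs <;> omega
  · by_cases hB : 2 * h - 1 + c ≤ x ∧ 2 * h - 1 + c ≤ y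
    · unfold R
      rw [if_neg hA, if_pos hB, if_neg (fun hh => hA hh.symm), if_pos hB.symm,
        circ h _ _ hh (by omega) (by omega), circ h _ _ hh (by omega) (by omega)]
      split_ifs <;> omega
    · unfold R
      rw [if_neg hA, if_neg hB, if_neg (fun hh => hA hh.symm), if_neg (fun hh => hB hh.symm)]
      omega

theorem R_irr (c h : ℕ) (hh : 2 ≤ h) (x : ℕ) : ¬ R c h x x := by
  unfold R
  split_ifs with h1 h2
  · rw [circ h x x hh h1.1 h1.1]; simp
  · intro h3
    have : (x - (2 * h - 1 + c) + (2 * h - 1) - (x - (2 * h - 1 + c))) = 2 * h - 1 := by omega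
    rw [this, Nat.mod_self] at h3
    omega
  · omega

/-- For every `Δ ≥ 3` and every `k ≥ 2 Δ - 1` some tournament on `k + 2 Δ - 4` vertices does not contain some
oriented tree with `k` edges and maximum degree at most `Δ`. -/
theorem result : ∀ Δ : ℕ, 3 ≤ Δ → ∀ k : ℕ, 2 * Δ - 1 ≤ k →
    ∃ R : Fin (k + 2 * Δ - 4) → Fin (k + 2 * Δ - 4) → Prop,
      (∀ x, ¬ R x x) ∧ (∀ x y, x ≠ y → (R x y ↔ ¬ R y x)) ∧
      ∃ E : Fin (k + 1) → Fin (k + 1) → Prop,
        (∀ a b, E a b → ¬ E b a) ∧ (SimpleGraph.fromRel E).IsTree ∧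
        (∀ v, ((SimpleGraph.fromRel E).neighborSet v).ncard ≤ Δ) ∧
        ¬ ∃ f : Fin (k + 1) → Fin (k + 2 * Δ - 4),
            Function.Injective f ∧ ∀ a b, E a b → R (f a) (f b) := by
  intro Δ hΔ k hk
  obtain ⟨h, rfl⟩ : ∃ h, Δ = h + 1 := ⟨Δ - 1, by omega⟩
  obtain ⟨c, rfl⟩ : ∃ c, k = c + 2 * h := ⟨k - 2 * h, by omega⟩
  have hh : 2 ≤ h := by omega
  have hc : 1 ≤ c := by omega
  have hN : c + 2 * h + 2 * (h + 1) - 4 = 4 * h - 2 + c := by omega
  rw [hN]
  refine ⟨fun x y => R c h x.1 y.1, fun x => R_irr c h hh x.1, fun x y hxy =>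
    R_tour c h hh x.1 y.1 x.2 y.2 (fun hh => hxy (Fin.ext hh)),
    fun a b => E c h a.1 b.1, ?_, E_isTree c h hc (by omega), ?_, ?_⟩
  · intro a b h1 h2
    simp only [E] at h1 h2
    omega
  · -- degrees
    intro v
    have hv := v.2
    have hsub : ∀ S : Finset (Fin (c + 2 * h + 1)), S.card ≤ h + 1 →
        (∀ w, (SimpleGraph.fromRel (fun a b : Fin (c + 2 * h + 1) => E c h a.1 b.1)).Adj v w → w ∈ S) →
        ((SimpleGraph.fromRel (fun a b : Fin (c + 2 * h + 1) => E c h a.1 b.1)).neighborSet v).ncard ≤
          h + 1 := by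
      intro S hS hw
      refine le_trans ?_ hS
      rw [← Set.ncard_coe_finset]
      apply Set.ncard_le_ncard _ (Set.toFinite _)
      intro w hww
      exact hw w hww
    have hadj : ∀ w, (SimpleGraph.fromRel (fun a b : Fin (c + 2 * h + 1) => E c h a.1 b.1)).Adj v w →
        E c h v.1 w.1 ∨ E c h w.1 v.1 := by
      intro w hw
      rw [SimpleGraph.fromRel_adj] at hw
      exact hw.2
    have hIcc : ∀ a b : ℕ, ((Finset.univ.filter
        (fun w : Fin (c + 2 * h + 1) => a ≤ w.1 ∧ w.1 ≤ b)) : Finset _).card ≤ b + 1 - a := by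
      intro a b
      have : (Finset.Icc a b).card = b + 1 - a := by simp
      rw [← this]
      apply Finset.card_le_card_of_injOn (fun w => w.1)
      · intro w hw
        simp only [Finset.coe_filter, Finset.mem_univ, true_and, Set.mem_ofPred_eq] at hw
        simpa using hw
      · intro a _ b _ hab
        exact Fin.ext hab
    by_cases hv0 : v.1 = 0
    · apply hsub (insert ⟨1, by omega⟩ (Finset.univ.filter
        (fun w : Fin (c + 2 * h + 1) => c + 1 ≤ w.1 ∧ w.1 ≤ c + h)))
      · have h1 := Finset.card_insert_le (⟨1, by omega⟩ : Fin (c + 2 * h + 1)) (Finset.univ.filter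
          (fun w : Fin (c + 2 * h + 1) => c + 1 ≤ w.1 ∧ w.1 ≤ c + h))
        have h2 := hIcc (c + 1) (c + h)
        omega
      · intro w hw
        have h1 := hadj w hw
        rw [Finset.mem_insert, Finset.mem_filter, Fin.ext_iff]
        simp only [E, Finset.mem_univ, true_and] at h1 ⊢
        omega
    · by_cases hvc : v.1 = c
      · apply hsub (insert ⟨c - 1, by omega⟩ (Finset.univ.filter
          (fun w : Fin (c + 2 * h + 1) => c + h + 1 ≤ w.1 ∧ w.1 ≤ c + 2 * h)))
        · have h1 := Finset.card_insert_le (⟨c - 1, by omega⟩ : Fin (c + 2 * h + 1)) (Finset.univ.filter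
            (fun w : Fin (c + 2 * h + 1) => c + h + 1 ≤ w.1 ∧ w.1 ≤ c + 2 * h))
          have h2 := hIcc (c + h + 1) (c + 2 * h)
          omega
        · intro w hw
          have h1 := hadj w hw
          rw [Finset.mem_insert, Finset.mem_filter, Fin.ext_iff]
          simp only [E, Finset.mem_univ, true_and] at h1 ⊢
          have := w.2
          omega
      · by_cases hvl : v.1 < c
        · apply hsub {⟨v.1 - 1, by omega⟩, ⟨v.1 + 1, by omega⟩}
          · exact (Finset.card_le_two).trans (by omega)
          · intro w hw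
            have h1 := hadj w hw
            rw [Finset.mem_insert, Finset.mem_singleton, Fin.ext_iff, Fin.ext_iff]
            simp only [E] at h1 ⊢
            omega
        · by_cases hvh : v.1 ≤ c + h
          · apply hsub {⟨0, by omega⟩}
            · simp
            · intro w hw
              have h1 := hadj w hw
              rw [Finset.mem_singleton, Fin.ext_iff]
              simp only [E] at h1 ⊢
              omega
          · apply hsub {⟨c, by omega⟩}
            · simp
            · intro w hw
              have h1 := hadj w hw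
              rw [Finset.mem_singleton, Fin.ext_iff]
              simp only [E] at h1 ⊢
              omega
  · -- no copy
    rintro ⟨f, hf, hE⟩
    have inj : ∀ i j : ℕ, ∀ hi : i < c + 2 * h + 1, ∀ hj : j < c + 2 * h + 1, i ≠ j →
        (f ⟨i, hi⟩).1 ≠ (f ⟨j, hj⟩).1 := by
      intro i j hi hj hij he
      have := hf (Fin.ext he)
      rw [Fin.mk.injEq] at this
      exact hij this
    -- the first path vertex is not in the first part
    have hu : 2 * h - 1 ≤ (f ⟨0, by omega⟩).1 := by
      by_contra hlt
      push Not at hlt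
      have hin : ∀ i : Fin h, R c h (f ⟨c + 1 + i.1, by omega⟩).1 (f ⟨0, by omega⟩).1 := by
        intro i
        refine hE _ _ (Or.inr (Or.inl ⟨?_, ?_, rfl⟩))
        · show c < c + 1 + i.1
          omega
        · show c + 1 + i.1 ≤ c + h
          have := i.2
          omega
      have hm : ∀ i : Fin h, (f ⟨c + 1 + i.1, by omega⟩).1 < 2 * h - 1 ∧
          1 ≤ ((f ⟨0, by omega⟩).1 + (2 * h - 1) - (f ⟨c + 1 + i.1, by omega⟩).1) % (2 * h - 1) ∧
          ((f ⟨0, by omega⟩).1 + (2 * h - 1) - (f ⟨c + 1 + i.1, by omega⟩).1) % (2 * h - 1) ≤ h - 1 := by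
        intro i
        have h1 := hin i
        unfold R at h1
        by_cases hA : (f ⟨c + 1 + i.1, by omega⟩).1 < 2 * h - 1
        · rw [if_pos ⟨hA, hlt⟩] at h1
          exact ⟨hA, h1⟩
        · rw [if_neg (fun hh => hA hh.1), if_neg (fun hh => by omega)] at h1
          omega
      have hcard := Finset.card_le_card_of_injOn (s := (Finset.univ : Finset (Fin h)))
        (t := Finset.Icc 1 (h - 1))
        (fun i => ((f ⟨0, by omega⟩).1 + (2 * h - 1) - (f ⟨c + 1 + i.1, by omega⟩).1) % (2 * h - 1))
        (by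
          intro i _
          simp only [Finset.coe_Icc, Set.mem_Icc]
          exact (hm i).2)
        (by
          intro i _ j _ hij
          have hi := (hm i).1
          have hj := (hm j).1
          simp only at hij
          rw [circ h _ _ hh hi hlt, circ h _ _ hh hj hlt] at hij
          by_contra hne
          have hne' : c + 1 + i.1 ≠ c + 1 + j.1 := by
            intro he; apply hne; apply Fin.ext; omega
          have := inj _ _ (by omega) (by omega) hne'
          split_ifs at hij <;> omega)
      rw [Finset.card_univ, Fintype.card_fin, Nat.card_Icc] at hcard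
      have hcard2 : ¬ (h ≤ h - 1 + 1 - 1) := by omega
      exact hcard2 hcard
    -- the last path vertex is not in the last part
    have hv : (f ⟨c, by omega⟩).1 < 2 * h - 1 + c := by
      by_contra hlt
      push Not at hlt
      have hin : ∀ i : Fin h, R c h (f ⟨c, by omega⟩).1 (f ⟨c + h + 1 + i.1, by omega⟩).1 := by
        intro i
        refine hE _ _ (Or.inr (Or.inr ⟨rfl, ?_⟩))
        show c + h < c + h + 1 + i.1
        omega
      have hb := (f ⟨c, by omega⟩).2
      have hm : ∀ i : Fin h, 2 * h - 1 + c ≤ (f ⟨c + h + 1 + i.1, by omega⟩).1 ∧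
          1 ≤ ((f ⟨c + h + 1 + i.1, by omega⟩).1 - (2 * h - 1 + c) + (2 * h - 1) -
            ((f ⟨c, by omega⟩).1 - (2 * h - 1 + c))) % (2 * h - 1) ∧
          ((f ⟨c + h + 1 + i.1, by omega⟩).1 - (2 * h - 1 + c) + (2 * h - 1) -
            ((f ⟨c, by omega⟩).1 - (2 * h - 1 + c))) % (2 * h - 1) ≤ h - 1 := by
        intro i
        have h1 := hin i
        unfold R at h1
        rw [if_neg (fun hh => by omega)] at h1
        by_cases hA : 2 * h - 1 + c ≤ (f ⟨c + h + 1 + i.1, by omega⟩).1
        · rw [if_pos ⟨hlt, hA⟩] at h1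
          exact ⟨hA, h1⟩
        · rw [if_neg (fun hh => hA hh.2)] at h1
          omega
      have hcard := Finset.card_le_card_of_injOn (s := (Finset.univ : Finset (Fin h)))
        (t := Finset.Icc 1 (h - 1))
        (fun i => ((f ⟨c + h + 1 + i.1, by omega⟩).1 - (2 * h - 1 + c) + (2 * h - 1) -
            ((f ⟨c, by omega⟩).1 - (2 * h - 1 + c))) % (2 * h - 1))
        (by
          intro i _
          simp only [Finset.coe_Icc, Set.mem_Icc]
          exact (hm i).2)
        (by
          intro i _ j _ hij
          have hi := (hm i).1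
          have hj := (hm j).1
          have hi2 := (f ⟨c + h + 1 + i.1, by omega⟩).2
          have hj2 := (f ⟨c + h + 1 + j.1, by omega⟩).2
          simp only at hij
          rw [circ h _ _ hh (by omega) (by omega), circ h _ _ hh (by omega) (by omega)] at hij
          by_contra hne
          have hne' : c + h + 1 + i.1 ≠ c + h + 1 + j.1 := by
            intro he; apply hne; apply Fin.ext; omega
          have := inj _ _ (by omega) (by omega) hne'
          split_ifs at hij <;> omega)
      rw [Finset.card_univ, Fintype.card_fin, Nat.card_Icc] at hcard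
      have hcard2 : ¬ (h ≤ h - 1 + 1 - 1) := by omega
      exact hcard2 hcard
    have hstep : ∀ i (hi : i < c), R c h (f ⟨i, by omega⟩).1 (f ⟨i + 1, by omega⟩).1 := by
      intro i hi
      exact hE _ _ (Or.inl ⟨hi, rfl⟩)
    have hlow : ∀ i (hi : i ≤ c), 2 * h - 1 ≤ (f ⟨i, by omega⟩).1 := by
      intro i
      induction i with
      | zero => intro _; exact hu
      | succ i ih =>
        intro hi
        have h1 := ih (by omega)
        have h2 := hstep i (by omega)
        by_contra hlt
        push Not at hlt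
        unfold R at h2
        rw [if_neg (fun hh => by omega), if_neg (fun hh => by omega)] at h2
        omega
    have hhigh : ∀ j (hj : j ≤ c), (f ⟨c - j, by omega⟩).1 < 2 * h - 1 + c := by
      intro j
      induction j with
      | zero => intro _; exact hv
      | succ j ih =>
        intro hj
        have h1 := ih (by omega)
        have h2 := hstep (c - (j + 1)) (by omega)
        have e : c - (j + 1) + 1 = c - j := by omega
        simp only [e] at h2
        by_contra hlt
        push Not at hlt
        unfold R at h2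
        rw [if_neg (fun hh => by omega), if_neg (fun hh => by omega)] at h2
        omega
    have hcard := Finset.card_le_card_of_injOn (s := (Finset.univ : Finset (Fin (c + 1))))
      (t := Finset.Ico (2 * h - 1) (2 * h - 1 + c))
      (fun i => (f ⟨i.1, by omega⟩).1)
      (by
        intro i _
        simp only [Finset.coe_Ico, Set.mem_Ico]
        refine ⟨hlow i.1 (by omega), ?_⟩
        have h1 := hhigh (c - i.1) (by omega)
        have e : c - (c - i.1) = i.1 := by omega
        simp only [e] at h1
        exact h1)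
      (by
        intro i _ j _ hij
        simp only at hij
        by_contra hne
        exact inj i.1 j.1 (by omega) (by omega) (fun he => hne (Fin.ext he)) hij)
    rw [Finset.card_univ, Fintype.card_fin, Nat.card_Ico] at hcard
    have hcard2 : ¬ (c + 1 ≤ 2 * h - 1 + c - (2 * h - 1)) := by omega
    exact hcard2 hcard

end Pool.Agent.Results.MP_b931a8_co.AdditiveTerm
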